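import Pool.Agent.H281R3.HT.Defs

/-!
# Strata of a semistable special fibre: definitions
-/

set_option autoImplicit false

open CategoryTheory AlgebraicGeometry

universe u v

namespace Run7.h152.SS

open Pool.Agent.H914 Pool.Agent.H914.VarClass Pool.Agent.H914.VarClass.Obj
  Pool.Agent.H914.WeilCohomology Pool.Agent.H281R3.HT

variable {k : Type u} [Field k] {𝒱 : VarClass k} {ops : CycleOps 𝒱}

/-- The direct sum of the cohomology algebras of the members of the finite family `Q`. -/
abbrev Coh (W : WeilCohomology.{u, v} ops) {a : ℕ} (Q : Fin a → Polarized 𝒱) : Type v :=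
  ∀ i, W.H (Q i).X

/-- A cycle on each member of the family `Q`. -/
abbrev Cyc {a : ℕ} (Q : Fin a → Polarized 𝒱) : Type u := ∀ i, (Q i).X.Cycles

/-- The classes of the cycles `z i` on the members of the family `Q`. -/
noncomputable def classes (W : WeilCohomology.{u, v} ops) {a : ℕ} {Q : Fin a → Polarized 𝒱}
    (z : Cyc Q) : Coh W Q := fun i => W.cl (Q i).X (z i)

/-- The cycles `D ^ m * z i` on the members of the family `Q`, where `D` is the divisor. -/
noncomputable def mulDiv (ops : CycleOps 𝒱) {a : ℕ} {Q : Fin a → Polarized 𝒱} (m : ℕ)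
    (z : Cyc Q) : Cyc Q := fun i => divPow ops (Q i).D m (z i)

/-- The sum of the intersection numbers `deg (z i * D ^ m * z i)` on the members of `Q`. -/
noncomputable def selfDegree (ops : CycleOps 𝒱) {a : ℕ} {Q : Fin a → Polarized 𝒱} (m : ℕ)
    (z : Cyc Q) : ℚ :=
  ∑ i, (Q i).X.V.degCycle (ops.mul (z i) (mulDiv ops m z i))

/-- The pull-back in cohomology, as a map. -/
def pullC (W : WeilCohomology.{u, v} ops) {X Y : 𝒱.Obj} (g : Y ⟶ X) (x : W.H X) : W.H Y :=
  W.map g x

/-- The push-forward in cohomology, as a map. -/
def pushC (W : WeilCohomology.{u, v} ops) {X Y : 𝒱.Obj} (g : Y ⟶ X) (y : W.H Y) : W.H X :=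
  W.push g y

/-- The class of the divisor of `P`. -/
noncomputable def divC (W : WeilCohomology.{u, v} ops) (P : Polarized 𝒱) : W.H P.X := W.cl P.X P.D

/-- The map which sends the family `x` to the sum of the elements `e c • φ c (x (t c))` in the
components with the indices `s c`. -/
def signedSum {a b r : ℕ} {U : Fin a → Type v} {V : Fin b → Type v} [∀ j, AddCommGroup (V j)]
    (s : Fin r → Fin b) (t : Fin r → Fin a) (e : Fin r → ℤ) (φ : ∀ c, U (t c) → V (s c))
    (x : ∀ i, U i) : ∀ j, V j :=
  ∑ c, e c • Pi.single (s c) (φ c (x (t c)))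

/-- Finitely many morphisms `map c`, with signs, from members of the family `R` to members of the
family `Q`. For instance `Q` are the components `Y_a` of a special fibre, `R` the components `Y_ab` of
the double intersections, and the morphisms are the inclusions of `Y_ab` in `Y_b` and in `Y_a`, for
`a < b`, with the signs `1` and `-1`. -/
structure Faces {a b : ℕ} (R : Fin b → Polarized 𝒱) (Q : Fin a → Polarized 𝒱) where
  /-- the number of morphisms -/
  r : ℕ
  /-- the source -/
  src : Fin r → Fin b
  /-- the target -/
  tgt : Fin r → Fin a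
  /-- the sign -/
  sgn : Fin r → ℤ
  /-- the morphisms -/
  map : ∀ c, (R (src c)).X ⟶ (Q (tgt c)).X

namespace Faces

variable {a b : ℕ} {R : Fin b → Polarized 𝒱} {Q : Fin a → Polarized 𝒱}

/-- The signed sum of the pull-backs: the restriction `ρ` from `⨁ H(Q i)` to `⨁ H(R j)`. -/
def res (F : Faces R Q) (W : WeilCohomology.{u, v} ops) (x : Coh W Q) : Coh W R :=
  signedSum F.src F.tgt F.sgn (fun c => pullC W (F.map c)) x

/-- The signed sum of the push-forwards: the Gysin map `τ` from `⨁ H(R j)` to `⨁ H(Q i)`. -/
def gys (F : Faces R Q) (W : WeilCohomology.{u, v} ops) (y : Coh W R) : Coh W Q :=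
  signedSum F.tgt F.src F.sgn (fun c => pushC W (F.map c)) y

/-- The classes of the divisors of the family `Q` restrict to those of the family `R`. -/
def Restricts (F : Faces R Q) (W : WeilCohomology.{u, v} ops) : Prop :=
  ∀ c, pullC W (F.map c) (divC W (Q (F.tgt c))) = divC W (R (F.src c))

end Faces

/-- The standard conjectures for the polarized variety `P`: hard Lefschetz, the conjecture of
Lefschetz type, and the conjecture of Hodge type. -/
def StandardFor (W : WeilCohomology.{u, v} ops) (P : Polarized 𝒱) : Prop :=
  P.X.IsCyc 1 P.D ∧ HardLefschetz W P.X P.D ∧ LefschetzB W P.X P.D ∧ HodgeType W P.X P.D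

/-- The members of the family `Q` have dimension `n - s` and satisfy the standard conjectures. -/
def Standard (W : WeilCohomology.{u, v} ops) (n s : ℕ) {a : ℕ} (Q : Fin a → Polarized 𝒱) :
    Prop :=
  ∀ i, (Q i).X.dim + s = n ∧ StandardFor W (Q i)

/-- Three finite families of polarized varieties with morphisms between them: the components `Q₀`
of a special fibre, the components `Q₁` of the double intersections and the components `Q₂` of the
triple intersections. -/
structure Strata (𝒱 : VarClass k) where
  /-- the number of components -/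
  a : ℕ
  /-- the number of components of the double intersections -/
  b : ℕ
  /-- the number of components of the triple intersections -/
  c : ℕ
  /-- the components -/
  Q₀ : Fin a → Polarized 𝒱
  /-- the double intersections -/
  Q₁ : Fin b → Polarized 𝒱
  /-- the triple intersections -/
  Q₂ : Fin c → Polarized 𝒱
  /-- the inclusions of the double intersections in the components -/
  F₀ : Faces Q₁ Q₀
  /-- the inclusions of the triple intersections in the double intersections -/
  F₁ : Faces Q₂ Q₁

namespace Strata

variable (W : WeilCohomology.{u, v} ops) (S : Strata 𝒱)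

/-- `ρ ρ = 0`. -/
def ResRes : Prop := ∀ x, S.F₁.res W (S.F₀.res W x) = 0

/-- `ρ τ + τ ρ = 0` on the double intersections. -/
def ResGys : Prop := ∀ y, S.F₀.res W (S.F₀.gys W y) + S.F₁.gys W (S.F₁.res W y) = 0

/-- The strata of a semistable special fibre of dimension `n`, satisfying the standard conjectures:
the dimensions are `n`, `n - 1`, `n - 2`, the divisors are restrictions of each other, and the maps
`ρ`, `τ` satisfy `ρ ρ = 0` and `ρ τ + τ ρ = 0`. -/
structure IsGood (n : ℕ) : Prop where
  std₀ : Standard W n 0 S.Q₀
  std₁ : Standard W n 1 S.Q₁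
  std₂ : Standard W n 2 S.Q₂
  div₀ : S.F₀.Restricts W
  div₁ : S.F₁.Restricts W
  res_res : S.ResRes W
  res_gys : S.ResGys W

/-- The restrictions of the cycles `z` on the components to the double intersections agree in
cohomology: `ρ (cl z) = 0`. -/
def Agree (z : Cyc S.Q₀) : Prop := S.F₀.res W (classes W z) = 0

/-- The class of `z` is `τ a` for some `a`. -/
def IsGysin (z : Cyc S.Q₀) : Prop := ∃ a, S.F₀.gys W a = classes W z

/-- The class of `z` is `τ a` for some `a` with `ρ a = 0`. -/
def IsGysinOfClosed (z : Cyc S.Q₀) : Prop :=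
  ∃ a, S.F₁.res W a = 0 ∧ S.F₀.gys W a = classes W z

end Strata

end Run7.h152.SS
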