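import Pool.Agent.Run7.h152.SS.Defs

/-!
# Semistable reduction with strata satisfying the standard conjectures: definition
-/

set_option autoImplicit false

open CategoryTheory AlgebraicGeometry

universe u v u' v'

namespace Run7.h152.SS

open Pool.Agent.H914 Pool.Agent.H914.VarClass Pool.Agent.H914.VarClass.Obj
  Pool.Agent.H914.WeilCohomology Pool.Agent.H281R3.HT

variable {k : Type u} [Field k] {𝒱 : VarClass k} {ops : CycleOps 𝒱}
  {k₀ : Type u'} [Field k₀] {𝒱₀ : VarClass k₀} {ops₀ : CycleOps 𝒱₀}

/-- The cycle `z` of codimension `j` on the polarized variety `P` of dimension `n` over `k` reduces to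
the cycles `z₀ i` on the components of the special fibre with the strata `S` over `k₀` (the closure
of `z` in a semistable model of `P`, restricted to the components):

* the restrictions of the `z₀ i` to the double intersections agree in cohomology;
* the number `deg (z * D ^ (n - 2 j) * z)` is the sum of the corresponding numbers of the `z₀ i`;
* if `D ^ (n - 2 j + 1) * z` is homologically trivial, then the class of
  `D ^ (n - 2 j + 1) * z₀` is a Gysin image from the double intersections;
* if the class of `z₀` is the Gysin image of a class `a` with `ρ a = 0` on the triple intersections,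
  then `z` is homologically trivial.

The last two conditions follow from the weight spectral sequence of the model: the class of `z` in
the graded piece of weight `2 j` of `H^(2 j)` is the class of `(z₀, 0, …)`, which is zero if and only
if `(z₀, 0, …) = (τ a, ρ a + …, …)`; and the class of `z` is zero if it is zero in this graded piece,
since the Tate twist by `j` of the part of smaller weight has no invariants. -/
structure Reduces (W : WeilCohomology.{u, v} ops) (W₀ : WeilCohomology.{u', v'} ops₀)
    (P : Polarized 𝒱) (S : Strata 𝒱₀) (j : ℕ) (z : P.X.Cycles) (z₀ : Cyc S.Q₀) : Prop where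
  mem : ∀ i, (S.Q₀ i).X.IsCyc j (z₀ i)
  res : S.Agree W₀ z₀
  deg : P.X.V.degCycle (ops.mul z (divPow ops P.D (P.X.dim - 2 * j) z)) =
    selfDegree ops₀ (P.X.dim - 2 * j) z₀
  zero : W.cl P.X (divPow ops P.D (P.X.dim - 2 * j + 1) z) = 0 →
    S.IsGysin W₀ (mulDiv ops₀ (P.X.dim - 2 * j + 1) z₀)
  inj : S.IsGysinOfClosed W₀ z₀ → W.cl P.X z = 0

/-- Every cycle `z` of codimension `j ≤ n / 2` on `P` reduces to cycles on the components of a special
fibre, depending on `z`, whose strata satisfy the standard conjectures. -/
def SemistableReduction (W : WeilCohomology.{u, v} ops) (W₀ : WeilCohomology.{u', v'} ops₀)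
    (P : Polarized 𝒱) : Prop :=
  ∀ j, 2 * j ≤ P.X.dim → ∀ z, P.X.IsCyc j z →
    ∃ (S : Strata 𝒱₀) (z₀ : Cyc S.Q₀),
      S.IsGood W₀ P.X.dim ∧ Reduces W W₀ P S j z z₀

end Run7.h152.SS
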