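import Pool.Agent.W552.RatBasis

/-!
# Harmonic decomposition
-/

set_option autoImplicit false

namespace Run7.h152.SS

open Pool.Agent.W552

variable {K : Type*} [Field K] [CharZero K] {V : Type*} [AddCommGroup V] [Module K V]

/-- A rational structure with a positive definite form is the orthogonal sum of the kernel and the
image of a self-adjoint operator. -/
theorem exists_decomp [Module.Finite K V] {M : V → Prop} (hM : RatSub K M)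
    (β : V →ₗ[K] V →ₗ[K] K) (hrat : ∀ x y, M x → M y → ∃ q : ℚ, β x y = q)
    (hsymm : ∀ x y, M x → M y → β x y = β y x)
    (hpos : ∀ x, M x → x ≠ 0 → ∃ q : ℚ, 0 < q ∧ β x x = q) {Δ : Module.End K V}
    (hΔ : ∀ x, M x → M (Δ x)) (hself : ∀ x y, M x → M y → β (Δ x) y = β x (Δ y)) {z : V}
    (hz : M z) : ∃ h u, M h ∧ M u ∧ Δ h = 0 ∧ z = h + Δ u := by
  classical
  obtain ⟨N, e, w, he, hw, horth, hex⟩ := exists_ratBasis hM β hrat hsymm hpos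
  have hex' : ∀ x, M x → ∃ r : Fin N → ℚ, x = ∑ l, (r l : K) • e l := fun x hx =>
    hex x (Submodule.subset_span hx) (fun l => hrat _ _ hx (he l))
  set c : (Fin N → ℚ) → V := fun r => ∑ l, (r l : K) • e l with hc
  have hcM : ∀ r, M (c r) := fun r => hM.sum _ fun l _ => hM.smul _ (he l)
  have hc0 : ∀ r, c r = 0 → r = 0 := by
    intro r hr
    funext l
    have h1 : β (c r) (e l) = (r l : K) * w l := by
      rw [hc]
      beta_reduce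
      rw [map_sum β, LinearMap.sum_apply, Finset.sum_eq_single l]
      · rw [map_smul, LinearMap.smul_apply, horth, if_pos rfl, smul_eq_mul]
      · intro l' _ hl
        rw [map_smul, LinearMap.smul_apply, horth, if_neg hl, smul_zero]
      · intro h0; exact absurd (Finset.mem_univ _) h0
    rw [hr, map_zero, LinearMap.zero_apply] at h1
    have h2 : (w l : K) ≠ 0 := by exact_mod_cast (hw l).ne'
    rcases mul_eq_zero.1 h1.symm with h3 | h3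
    · exact_mod_cast h3
    · exact absurd h3 h2
  choose d hd using fun l => hex' _ (hΔ _ (he l))
  set T : (Fin N → ℚ) →ₗ[ℚ] (Fin N → ℚ) := Matrix.toLin' (Matrix.of fun l m => d m l) with hT
  have hcT : ∀ r, c (T r) = Δ (c r) := by
    intro r
    rw [hc]
    beta_reduce
    rw [map_sum]
    have h1 : ∀ l, ((T r l : ℚ) : K) • e l = ∑ m, ((r m : K) * (d m l : K)) • e l := by
      intro l
      rw [hT, Matrix.toLin'_apply, Matrix.mulVec, dotProduct, Rat.cast_sum, Finset.sum_smul]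
      apply Finset.sum_congr rfl
      intro m _
      rw [Matrix.of_apply, Rat.cast_mul, mul_comm]
    rw [Finset.sum_congr rfl fun l _ => h1 l, Finset.sum_comm]
    apply Finset.sum_congr rfl
    intro m _
    rw [map_smul, hd m, Finset.smul_sum]
    apply Finset.sum_congr rfl
    intro l _
    rw [mul_smul]
  have hdis : Disjoint (LinearMap.range T) (LinearMap.ker T) := by
    rw [Submodule.disjoint_def]
    rintro x ⟨y, rfl⟩ hx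
    by_contra hne
    have h1 : c (T y) ≠ 0 := fun h0 => hne (hc0 _ h0)
    obtain ⟨q, hq, hq'⟩ := hpos _ (hcM _) h1
    have h2 : Δ (c (T y)) = 0 := by
      rw [← hcT, LinearMap.mem_ker.1 hx, hc]
      simp
    rw [hcT y, hself _ _ (hcM _) (hΔ _ (hcM _)), ← hcT y, h2, map_zero] at hq'
    have : q = 0 := by exact_mod_cast hq'.symm
    exact hq.ne' this
  have htop : LinearMap.range T ⊔ LinearMap.ker T = ⊤ := by
    apply Submodule.eq_top_of_disjoint _ _ _ hdis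
    rw [LinearMap.finrank_range_add_finrank_ker]
  obtain ⟨r, hr⟩ := hex' z hz
  have hrt : r ∈ LinearMap.range T ⊔ LinearMap.ker T := by rw [htop]; trivial
  obtain ⟨_, ⟨y, rfl⟩, x, hx, hxy⟩ := Submodule.mem_sup.1 hrt
  refine ⟨c x, c y, hcM _, hcM _, ?_, ?_⟩
  · rw [← hcT, LinearMap.mem_ker.1 hx, hc]
    simp
  · rw [← hcT]
    have h1 : z = c r := hr
    rw [h1, ← hxy, hc]
    beta_reduce
    rw [← Finset.sum_add_distrib]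
    apply Finset.sum_congr rfl
    intro l _
    rw [Pi.add_apply, Rat.cast_add, add_smul, add_comm]

/-- A rational structure with a positive definite symmetric rational form. -/
structure PosForm (M : V → Prop) (β : V →ₗ[K] V →ₗ[K] K) : Prop where
  rat : ∀ x y, M x → M y → ∃ q : ℚ, β x y = q
  symm : ∀ x y, M x → M y → β x y = β y x
  pos : ∀ x, M x → x ≠ 0 → ∃ q : ℚ, 0 < q ∧ β x x = q

namespace PosForm

variable {M : V → Prop} {β : V →ₗ[K] V →ₗ[K] K} (P : PosForm M β)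

include P

lemma nonneg {x : V} (hx : M x) : ∃ q : ℚ, 0 ≤ q ∧ β x x = q := by
  by_cases h0 : x = 0
  · exact ⟨0, le_rfl, by rw [h0]; simp⟩
  · obtain ⟨q, hq, hq'⟩ := P.pos x hx h0
    exact ⟨q, hq.le, hq'⟩

lemma eq_zero {x : V} (hx : M x) (h : β x x = 0) : x = 0 := by
  by_contra h0
  obtain ⟨q, hq, hq'⟩ := P.pos x hx h0
  rw [h] at hq'
  exact hq.ne' (by exact_mod_cast hq'.symm)

end PosForm

variable {V₀ V₁ V₂ : Type*} [AddCommGroup V₀] [Module K V₀] [AddCommGroup V₁] [Module K V₁]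
  [AddCommGroup V₂] [Module K V₂]

/-- Two positive definite forms, and two maps adjoint to each other up to the sign `s`. -/
structure Adj (M₀ : V₀ → Prop) (M₁ : V₁ → Prop) (B₀ : V₀ →ₗ[K] V₀ →ₗ[K] K)
    (B₁ : V₁ →ₗ[K] V₁ →ₗ[K] K) (ρ ρ' : V₀ →ₗ[K] V₁) (τ τ' : V₁ →ₗ[K] V₀) : Prop where
  ρ_mem : ∀ x, M₀ x → M₁ (ρ x)
  ρ'_mem : ∀ x, M₀ x → M₁ (ρ' x)
  τ_mem : ∀ y, M₁ y → M₀ (τ y)
  τ'_mem : ∀ y, M₁ y → M₀ (τ' y)
  res : ∀ x y, M₀ x → M₁ y → B₁ (ρ x) y = B₀ x (τ' y)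
  gys : ∀ y x, M₀ x → B₀ (τ y) x = -B₁ y (ρ' x)

/-- **The harmonic decomposition.** -/
theorem harmonic [Module.Finite K V₀] {N₀ : V₀ → Prop} {M₁ : V₁ → Prop} {M₂ : V₂ → Prop}
    {B₀ : V₀ →ₗ[K] V₀ →ₗ[K] K} {B₁ : V₁ →ₗ[K] V₁ →ₗ[K] K} {B₂ : V₂ →ₗ[K] V₂ →ₗ[K] K}
    (P₀ : PosForm N₀ B₀) (P₁ : PosForm M₁ B₁) (P₂ : PosForm M₂ B₂)
    {ρ₀ ρ₀' : V₀ →ₗ[K] V₁} {τ₀ τ₀' : V₁ →ₗ[K] V₀} {ρ₁ ρ₁' : V₁ →ₗ[K] V₂}
    {τ₁ τ₁' : V₂ →ₗ[K] V₁} (A₀ : Adj N₀ M₁ B₀ B₁ ρ₀ ρ₀' τ₀ τ₀')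
    (A₁ : Adj M₁ M₂ B₁ B₂ ρ₁ ρ₁' τ₁ τ₁') (r1 : ∀ x, ρ₁ (ρ₀ x) = 0)
    (r2 : ∀ x, ρ₁ (ρ₀' x) + ρ₁' (ρ₀ x) = 0) (r3 : ∀ y, ρ₀ (τ₀ y) + τ₁ (ρ₁ y) = 0)
    (r4 : ∀ y, ρ₀' (τ₀ y) + ρ₀ (τ₀' y) + τ₁' (ρ₁ y) + τ₁ (ρ₁' y) = 0)
    {M₀ : V₀ → Prop} (hM₀ : RatSub K M₀) (hM : ∀ x, M₀ x → N₀ x)
    (hΔ : ∀ x, M₀ x → M₀ (τ₀ (ρ₀' x) - τ₀' (ρ₀ x))) {z : V₀} (hz : M₀ z) (hz0 : ρ₀ z = 0) :
    ∃ h a, M₀ h ∧ ρ₀ h = 0 ∧ ρ₀' h = 0 ∧ ρ₁ a = 0 ∧ z = h + τ₀ a := by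
  set Δ : Module.End K V₀ := τ₀ ∘ₗ ρ₀' - τ₀' ∘ₗ ρ₀ with hΔdef
  have hΔa : ∀ x, Δ x = τ₀ (ρ₀' x) - τ₀' (ρ₀ x) := fun x => rfl
  -- the form of the Laplacian
  have hB : ∀ x y, N₀ x → N₀ y → B₀ (Δ x) y = -B₁ (ρ₀' x) (ρ₀' y) - B₁ (ρ₀ x) (ρ₀ y) := by
    intro x y hx hy
    rw [hΔa, map_sub, LinearMap.sub_apply, A₀.gys _ _ hy,
      P₀.symm _ _ (A₀.τ'_mem _ (A₀.ρ_mem _ hx)) hy, ← A₀.res _ _ hy (A₀.ρ_mem _ hx),
      P₁.symm _ _ (A₀.ρ_mem _ hy) (A₀.ρ_mem _ hx)]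
  have hNΔ : ∀ x, N₀ x → N₀ (τ₀ (ρ₀' x)) ∧ N₀ (τ₀' (ρ₀ x)) := fun x hx =>
    ⟨A₀.τ_mem _ (A₀.ρ'_mem _ hx), A₀.τ'_mem _ (A₀.ρ_mem _ hx)⟩
  obtain ⟨h, u, hh, hu, hh0, hzu⟩ := exists_decomp hM₀ B₀
    (fun x y hx hy => P₀.rat x y (hM x hx) (hM y hy))
    (fun x y hx hy => P₀.symm x y (hM x hx) (hM y hy))
    (fun x hx h0 => P₀.pos x (hM x hx) h0) (Δ := Δ) (fun x hx => hΔ x hx)
    (by
      intro x y hx hy
      rw [hB x y (hM x hx) (hM y hy), P₀.symm x (Δ y) (hM x hx) (hM _ (hΔ y hy)),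
        hB y x (hM y hy) (hM x hx), P₁.symm _ _ (A₀.ρ'_mem _ (hM x hx)) (A₀.ρ'_mem _ (hM y hy)),
        P₁.symm _ _ (A₀.ρ_mem _ (hM x hx)) (A₀.ρ_mem _ (hM y hy))]) hz
  -- harmonic classes
  have hNh := hM h hh
  have h1 : ρ₀ h = 0 ∧ ρ₀' h = 0 := by
    have h2 := hB h h hNh hNh
    rw [hh0, map_zero, LinearMap.zero_apply] at h2
    obtain ⟨q, hq, hq'⟩ := P₁.nonneg (A₀.ρ'_mem _ hNh)
    obtain ⟨r, hr, hr'⟩ := P₁.nonneg (A₀.ρ_mem _ hNh)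
    rw [hq', hr'] at h2
    have h3 : (0 : ℚ) = -q - r := by exact_mod_cast h2
    have hq0 : q = 0 := by linarith
    have hr0 : r = 0 := by linarith
    rw [hq0, Rat.cast_zero] at hq'
    rw [hr0, Rat.cast_zero] at hr'
    exact ⟨P₁.eq_zero (A₀.ρ_mem _ hNh) hr', P₁.eq_zero (A₀.ρ'_mem _ hNh) hq'⟩
  -- the exact part
  have hNu := hM u hu
  set v := ρ₀ u with hv
  have hvM : M₁ v := A₀.ρ_mem _ hNu
  have hρΔ : ρ₀ (Δ u) = 0 := by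
    have h2 : Δ u = z - h := by rw [hzu]; abel
    rw [h2, map_sub, hz0, h1.1, sub_zero]
  have hkey : τ₁ (ρ₁' v) + τ₁ (ρ₁' v) + ρ₀' (τ₀ v) = 0 := by
    have e1 := r3 (ρ₀' u)
    have e2 := r2 u
    have e3 := r4 v
    have e4 := r1 u
    rw [← hv] at e2 e4
    rw [hΔa, map_sub, ← hv] at hρΔ
    have e5 : ρ₁ (ρ₀' u) = -ρ₁' v := eq_neg_of_add_eq_zero_left e2
    rw [e5, map_neg] at e1
    rw [e4, map_zero, add_zero] at e3
    have e6 : ρ₀ (τ₀ (ρ₀' u)) = τ₁ (ρ₁' v) := by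
      rw [← sub_eq_zero]; rw [← sub_eq_add_neg] at e1; exact e1
    rw [e6] at hρΔ
    have e7 : ρ₀ (τ₀' v) = τ₁ (ρ₁' v) := (sub_eq_zero.1 hρΔ).symm
    rw [e7] at e3
    rw [← e3]
    abel
  have hτv : N₀ (τ₀ v) := A₀.τ_mem _ hvM
  have hρv : M₂ (ρ₁' v) := A₁.ρ'_mem _ hvM
  have h5 : ρ₁' v = 0 ∧ τ₀ v = 0 := by
    have h2 := congrArg (fun y => B₁ y v) hkey
    simp only [map_add, LinearMap.add_apply, map_zero, LinearMap.zero_apply] at h2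
    rw [A₁.gys _ _ hvM, P₁.symm _ _ (A₀.ρ'_mem _ hτv) hvM,
      show B₁ v (ρ₀' (τ₀ v)) = -B₀ (τ₀ v) (τ₀ v) by rw [A₀.gys _ _ hτv, neg_neg]] at h2
    obtain ⟨q, hq, hq'⟩ := P₂.nonneg hρv
    obtain ⟨r, hr, hr'⟩ := P₀.nonneg hτv
    rw [hq', hr'] at h2
    have h3 : -q + -q + -r = 0 := by exact_mod_cast h2
    have hq0 : q = 0 := by linarith
    have hr0 : r = 0 := by linarith
    rw [hq0, Rat.cast_zero] at hq'
    rw [hr0, Rat.cast_zero] at hr'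
    exact ⟨P₂.eq_zero hρv hq', P₀.eq_zero hτv hr'⟩
  have h6 : τ₀' v = 0 := by
    have e3 := r4 v
    rw [h5.1, h5.2, r1 u, map_zero, map_zero, map_zero, zero_add, add_zero, add_zero] at e3
    apply P₀.eq_zero (A₀.τ'_mem _ hvM)
    rw [← A₀.res _ _ (A₀.τ'_mem _ hvM) hvM, e3, map_zero, LinearMap.zero_apply]
  refine ⟨h, ρ₀' u, hh, h1.1, h1.2, ?_, ?_⟩
  · have e2 := r2 u
    rw [← hv, h5.1, add_zero] at e2
    exact e2
  · rw [hzu, hΔa, ← hv, h6, sub_zero]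

end Run7.h152.SS
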