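import Pool.Agent.Run7.h152.SS.Mor
import Pool.Agent.Run7.h152.SS.Lap
import Pool.Agent.Run7.h152.SS.Defs2
import Pool.Agent.W552.TautFr

/-!
# Restriction and Gysin maps of a family of morphisms
-/

set_option autoImplicit false

open CategoryTheory AlgebraicGeometry

universe u v

namespace Run7.h152.SS

open Pool.Agent.H914 Pool.Agent.H914.VarClass Pool.Agent.H914.VarClass.Obj
  Pool.Agent.H914.WeilCohomology Pool.Agent.H281R3.HT Pool.Agent.W552

variable {k : Type u} [Field k] {𝒱 : VarClass k} {ops : CycleOps 𝒱}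
  {W : WeilCohomology.{u, v} ops} {a b : ℕ} {Q : Fin a → Polarized 𝒱}
  {R : Fin b → Polarized 𝒱}

/-- All components are sums of algebraic classes. -/
def ASF (W : WeilCohomology.{u, v} ops) (Q : Fin a → Polarized 𝒱) (x : Coh W Q) : Prop :=
  ∀ i, AS W (Q i).X (x i)

/-- All components are of degree `n`. -/
def GrF (W : WeilCohomology.{u, v} ops) (Q : Fin a → Polarized 𝒱) (n : ℕ) (x : Coh W Q) : Prop :=
  ∀ i, x i ∈ W.gr (Q i).X n

/-- The sum of the forms of the components. -/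
noncomputable def bfF (f : ∀ i, Module.End W.K (W.H (Q i).X)) :
    Coh W Q →ₗ[W.K] Coh W Q →ₗ[W.K] W.K :=
  ∑ i, (bf W (Q i).X (Q i).D (f i)).compl₁₂ (LinearMap.proj i) (LinearMap.proj i)

lemma bfF_apply (f : ∀ i, Module.End W.K (W.H (Q i).X)) (x y : Coh W Q) :
    bfF f x y = ∑ i, bf W (Q i).X (Q i).D (f i) (x i) (y i) := by
  rw [bfF, LinearMap.sum_apply, LinearMap.sum_apply]
  rfl

lemma bfF_single (f : ∀ i, Module.End W.K (W.H (Q i).X)) (i : Fin a) (v : W.H (Q i).X)
    (y : Coh W Q) :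
    bfF f (Pi.single i v) y = bf W (Q i).X (Q i).D (f i) v (y i) := by
  rw [bfF_apply, Finset.sum_eq_single i]
  · rw [Pi.single_eq_same]
  · intro j _ hj
    rw [Pi.single_eq_of_ne hj, map_zero, LinearMap.zero_apply]
  · intro h; exact absurd (Finset.mem_univ _) h

lemma bfF_single' (f : ∀ i, Module.End W.K (W.H (Q i).X)) (i : Fin a) (v : W.H (Q i).X)
    (y : Coh W Q) :
    bfF f y (Pi.single i v) = bf W (Q i).X (Q i).D (f i) (y i) v := by
  rw [bfF_apply, Finset.sum_eq_single i]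
  · rw [Pi.single_eq_same]
  · intro j _ hj
    rw [Pi.single_eq_of_ne hj, map_zero]
  · intro h; exact absurd (Finset.mem_univ _) h

/-- The sum of maps attached to the faces. -/
noncomputable def mkO (F : Faces R Q)
    (φ : ∀ c, W.H (Q (F.tgt c)).X →ₗ[W.K] W.H (R (F.src c)).X) : Coh W Q →ₗ[W.K] Coh W R :=
  ∑ c, (F.sgn c : W.K) • (LinearMap.single W.K (fun j => W.H (R j).X) (F.src c) ∘ₗ
    φ c ∘ₗ LinearMap.proj (F.tgt c))

/-- The sum of maps attached to the faces, in the other direction. -/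
noncomputable def mkU (F : Faces R Q)
    (ψ : ∀ c, W.H (R (F.src c)).X →ₗ[W.K] W.H (Q (F.tgt c)).X) : Coh W R →ₗ[W.K] Coh W Q :=
  ∑ c, (F.sgn c : W.K) • (LinearMap.single W.K (fun i => W.H (Q i).X) (F.tgt c) ∘ₗ
    ψ c ∘ₗ LinearMap.proj (F.src c))

variable (F : Faces R Q)

lemma mkO_apply (φ : ∀ c, W.H (Q (F.tgt c)).X →ₗ[W.K] W.H (R (F.src c)).X) (x : Coh W Q) :
    mkO F φ x = ∑ c, (F.sgn c : W.K) • (Pi.single (F.src c) (φ c (x (F.tgt c))) : Coh W R) := by
  rw [mkO, LinearMap.sum_apply]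
  rfl

lemma mkU_apply (ψ : ∀ c, W.H (R (F.src c)).X →ₗ[W.K] W.H (Q (F.tgt c)).X) (y : Coh W R) :
    mkU F ψ y = ∑ c, (F.sgn c : W.K) • (Pi.single (F.tgt c) (ψ c (y (F.src c))) : Coh W Q) := by
  rw [mkU, LinearMap.sum_apply]
  rfl

/-- The restriction as a linear map. -/
noncomputable def Faces.resL (F : Faces R Q) (W : WeilCohomology.{u, v} ops) :
    Coh W Q →ₗ[W.K] Coh W R := mkO F fun c => (W.map (F.map c)).toLinearMap

/-- The Gysin map as a linear map. -/
noncomputable def Faces.gysL (F : Faces R Q) (W : WeilCohomology.{u, v} ops) :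
    Coh W R →ₗ[W.K] Coh W Q := mkU F fun c => W.push (F.map c)

lemma res_eq : F.resL W = mkO F fun c => (W.map (F.map c)).toLinearMap := rfl

lemma gys_eq : F.gysL W = mkU F fun c => W.push (F.map c) := rfl

lemma res_resL (x : Coh W Q) : F.res W x = F.resL W x := by
  rw [res_eq, mkO_apply]
  change ∑ c, F.sgn c • (Pi.single (F.src c) (W.map (F.map c) (x (F.tgt c))) : Coh W R) = _
  apply Finset.sum_congr rfl
  intro c _
  rw [Int.cast_smul_eq_zsmul]
  rfl

lemma gys_gysL (y : Coh W R) : F.gys W y = F.gysL W y := by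
  rw [gys_eq, mkU_apply]
  change ∑ c, F.sgn c • (Pi.single (F.tgt c) (W.push (F.map c) (y (F.src c))) : Coh W Q) = _
  apply Finset.sum_congr rfl
  intro c _
  rw [Int.cast_smul_eq_zsmul]

/-- Predicates which are stable under rational linear combinations. -/
lemma mkO_mem {p : ∀ l, W.H (R l).X → Prop} (hp : ∀ l, RatSub W.K (p l))
    {φ : ∀ c, W.H (Q (F.tgt c)).X →ₗ[W.K] W.H (R (F.src c)).X} {x : Coh W Q}
    (h : ∀ c, p _ (φ c (x (F.tgt c)))) (l : Fin b) : p l (mkO F φ x l) := by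
  rw [mkO_apply, Finset.sum_apply]
  apply (hp l).sum
  intro c _
  rw [Pi.smul_apply]
  have h1 : (F.sgn c : W.K) = ((F.sgn c : ℚ) : W.K) := by push_cast; rfl
  rw [h1]
  apply (hp l).smul
  by_cases hl : l = F.src c
  · subst hl
    rw [Pi.single_eq_same]
    exact h c
  · rw [Pi.single_eq_of_ne hl]
    exact (hp l).zero

lemma mkU_mem {p : ∀ l, W.H (Q l).X → Prop} (hp : ∀ l, RatSub W.K (p l))
    {ψ : ∀ c, W.H (R (F.src c)).X →ₗ[W.K] W.H (Q (F.tgt c)).X} {y : Coh W R}
    (h : ∀ c, p _ (ψ c (y (F.src c)))) (l : Fin a) : p l (mkU F ψ y l) := by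
  rw [mkU_apply, Finset.sum_apply]
  apply (hp l).sum
  intro c _
  rw [Pi.smul_apply]
  have h1 : (F.sgn c : W.K) = ((F.sgn c : ℚ) : W.K) := by push_cast; rfl
  rw [h1]
  apply (hp l).smul
  by_cases hl : l = F.tgt c
  · subst hl
    rw [Pi.single_eq_same]
    exact h c
  · rw [Pi.single_eq_of_ne hl]
    exact (hp l).zero

lemma ratSub_sub {V : Type*} [AddCommGroup V] [Module W.K V] (S : Submodule W.K V) :
    RatSub W.K (fun x => x ∈ S) where
  zero := S.zero_mem
  add := S.add_mem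
  smul _ _ h := S.smul_mem _ h

/-- The operator with the components `f i`. -/
noncomputable def lam (f : ∀ i, Module.End W.K (W.H (Q i).X)) : Module.End W.K (Coh W Q) :=
  LinearMap.pi fun i => f i ∘ₗ LinearMap.proj i

lemma lam_apply (f : ∀ i, Module.End W.K (W.H (Q i).X)) (x : Coh W Q) (i : Fin a) :
    lam f x i = f i (x i) := rfl

lemma lam_single (f : ∀ i, Module.End W.K (W.H (Q i).X)) (i : Fin a) (v : W.H (Q i).X) :
    lam f (Pi.single i v) = Pi.single i (f i v) := by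
  funext j
  rw [lam_apply]
  by_cases hj : j = i
  · subst hj; rw [Pi.single_eq_same, Pi.single_eq_same]
  · rw [Pi.single_eq_of_ne hj, Pi.single_eq_of_ne hj, map_zero]

lemma single_sub (i : Fin a) (v w : W.H (Q i).X) :
    (Pi.single i (v - w) : Coh W Q) = Pi.single i v - Pi.single i w := by
  funext j
  rw [Pi.sub_apply]
  by_cases hj : j = i
  · subst hj; rw [Pi.single_eq_same, Pi.single_eq_same, Pi.single_eq_same]
  · rw [Pi.single_eq_of_ne hj, Pi.single_eq_of_ne hj, Pi.single_eq_of_ne hj, sub_zero]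

variable {f : ∀ i, Module.End W.K (W.H (Q i).X)} {f' : ∀ i, Module.End W.K (W.H (R i).X)}

lemma mkO_der (φ : ∀ c, W.H (Q (F.tgt c)).X →ₗ[W.K] W.H (R (F.src c)).X) (x : Coh W Q) :
    mkO F (fun c => der (f (F.tgt c)) (f' (F.src c)) (φ c)) x =
      lam f' (mkO F φ x) - mkO F φ (lam f x) := by
  rw [mkO_apply, mkO_apply, mkO_apply, map_sum, ← Finset.sum_sub_distrib]
  apply Finset.sum_congr rfl
  intro c _
  rw [map_smul, lam_single, ← smul_sub, ← single_sub]
  rfl

lemma mkU_der (ψ : ∀ c, W.H (R (F.src c)).X →ₗ[W.K] W.H (Q (F.tgt c)).X) (y : Coh W R) :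
    mkU F (fun c => der (f' (F.src c)) (f (F.tgt c)) (ψ c)) y =
      lam f (mkU F ψ y) - mkU F ψ (lam f' y) := by
  rw [mkU_apply, mkU_apply, mkU_apply, map_sum, ← Finset.sum_sub_distrib]
  apply Finset.sum_congr rfl
  intro c _
  rw [map_smul, lam_single, ← smul_sub, ← single_sub]
  rfl

/-- The commutator of the restriction with the lowering operators. -/
noncomputable def resF (f : ∀ i, Module.End W.K (W.H (Q i).X))
    (f' : ∀ i, Module.End W.K (W.H (R i).X)) : Coh W Q →ₗ[W.K] Coh W R :=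
  mkO F fun c => resD (f (F.tgt c)) (f' (F.src c)) (F.map c)

/-- The commutator of the Gysin map with the lowering operators. -/
noncomputable def gysF (f : ∀ i, Module.End W.K (W.H (Q i).X))
    (f' : ∀ i, Module.End W.K (W.H (R i).X)) : Coh W R →ₗ[W.K] Coh W Q :=
  mkU F fun c => gysD (f (F.tgt c)) (f' (F.src c)) (F.map c)

lemma resF_eq (x : Coh W Q) : resF F f f' x = lam f' (F.resL W x) - F.resL W (lam f x) := by
  rw [res_eq]
  exact mkO_der F _ x

lemma gysF_eq (y : Coh W R) : gysF F f f' y = lam f (F.gysL W y) - F.gysL W (lam f' y) := by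
  rw [gys_eq]
  exact mkU_der F _ y

/-- Frames for the members of a family which satisfy the conjecture of Hodge type. -/
structure FFr (Q : Fin a → Polarized 𝒱) (f : ∀ i, Module.End W.K (W.H (Q i).X)) : Prop where
  fr : ∀ i, Fr W (Q i).X (Q i).D (f i)
  lf : ∀ i, LefStr (W.isInternal (Q i).X) (Q i).X.dim
    (LinearMap.mulLeft W.K (W.cl (Q i).X (Q i).D)) (f i)
  ht : ∀ i, HodgeType W (Q i).X (Q i).D

lemma Standard.exists_ffr {n s : ℕ} (h : Standard W n s Q) : ∃ f, FFr (W := W) Q f := by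
  choose f hf hf' using fun i => exists_fr (h i).2.1 (h i).2.2.1 (h i).2.2.2.1
  exact ⟨f, hf, hf', fun i => (h i).2.2.2.2⟩

lemma FFr.posForm (h : FFr Q f) : PosForm (ASF W Q) (bfF f) where
  rat x y hx hy := by
    choose q hq using fun i => (h.fr i).bf_rat (hx i) (hy i)
    refine ⟨∑ i, q i, ?_⟩
    rw [bfF_apply, Rat.cast_sum]
    exact Finset.sum_congr rfl fun i _ => hq i
  symm x y hx hy := by
    rw [bfF_apply, bfF_apply]
    apply Finset.sum_congr rfl
    intro i _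
    rw [bf_sy (h.fr i) (h.lf i)]
    congr 2
    refine AS.ind (p := fun y => par (W.isInternal (Q i).X) y = y) ?_ ?_ (hy i)
    · intro j y hy
      rw [par, scal_apply _ _ (alg_gr hy), pow_mul]
      simp
    · intro y z hy hz; rw [map_add, hy, hz]
  pos x hx hx0 := by
    have key : ∀ i, ∃ q : ℚ, 0 ≤ q ∧ (x i ≠ 0 → 0 < q) ∧
        bf W (Q i).X (Q i).D (f i) (x i) (x i) = q := by
      intro i
      by_cases h0 : x i = 0
      · exact ⟨0, le_rfl, fun h1 => absurd h0 h1, by rw [h0]; simp⟩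
      · obtain ⟨q, hq, hq'⟩ := (h.fr i).bf_pos (h.ht i) (hx i) h0
        exact ⟨q, hq.le, fun _ => hq, hq'⟩
    choose q hq0 hq1 hq2 using key
    refine ⟨∑ i, q i, ?_, ?_⟩
    · obtain ⟨i, hi⟩ := Function.ne_iff.1 hx0
      exact Finset.sum_pos' (fun i _ => hq0 i) ⟨i, Finset.mem_univ _, hq1 i hi⟩
    · rw [bfF_apply, Rat.cast_sum]
      exact Finset.sum_congr rfl fun i _ => hq2 i

section

variable (h : FFr Q f) (h' : FFr R f')
  (hdim : ∀ c, (R (F.src c)).X.dim + 1 = (Q (F.tgt c)).X.dim) (hdiv : F.Restricts W)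

include h h' hdim hdiv

lemma FFr.adj : Adj (ASF W Q) (ASF W R) (bfF f) (bfF f') (F.resL W) (resF F f f') (F.gysL W)
    (gysF F f f') where
  ρ_mem x hx := mkO_mem F (fun _ => AS.ratSub) fun c => (hx _).map _
  ρ'_mem x hx := mkO_mem F (fun _ => AS.ratSub) fun c => AS_resD (h.fr _) (h'.fr _) _ (hx _)
  τ_mem y hy := mkU_mem F (fun _ => AS.ratSub) fun c => (hy _).push _
  τ'_mem y hy := mkU_mem F (fun _ => AS.ratSub) fun c => AS_gysD (h.fr _) (h'.fr _) _ (hy _)
  res x y hx hy := by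
    rw [res_eq, mkO_apply, gysF, mkU_apply, map_sum, map_sum, LinearMap.sum_apply]
    apply Finset.sum_congr rfl
    intro c _
    rw [map_smul, map_smul, LinearMap.smul_apply, bfF_single, bfF_single']
    congr 1
    exact bf_res (h.fr _) (h'.fr _) _ (hdim c) (hdiv c) (hx _) (hy _)
  gys y x hx := by
    rw [gys_eq, mkU_apply, resF, mkO_apply, map_sum, map_sum, LinearMap.sum_apply,
      ← Finset.sum_neg_distrib]
    apply Finset.sum_congr rfl
    intro c _
    rw [map_smul, map_smul, LinearMap.smul_apply, bfF_single, bfF_single', ← smul_neg]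
    congr 1
    exact bf_gys (h.fr _) (h'.fr _) _ (hdim c) (hdiv c) _ (hx _)

lemma FFr.res_gr {n : ℕ} {x : Coh W Q} (hx : GrF W Q n x) : GrF W R n (F.resL W x) :=
  mkO_mem F (p := fun l x => x ∈ W.gr (R l).X n) (fun _ => ratSub_sub _)
    fun c => W.map_mem _ (hx _)

lemma FFr.gys_gr {n : ℕ} {y : Coh W R} (hy : GrF W R n y) : GrF W Q (n + 2) (F.gysL W y) :=
  mkU_mem F (p := fun l x => x ∈ W.gr (Q l).X (n + 2)) (fun _ => ratSub_sub _)
    fun c => push_gr _ (hdim c) (hy _)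

lemma FFr.gysF_gr {n : ℕ} {y : Coh W R} (hy : GrF W R n y) : GrF W Q n (gysF F f f' y) :=
  mkU_mem F (p := fun l x => x ∈ W.gr (Q l).X n) (fun _ => ratSub_sub _)
    fun c => gysD_gr (h.fr _) (h'.fr _) _ (hdim c) (hdiv c) (hy _)

lemma FFr.resF_gr {n : ℕ} {x : Coh W Q} (hx : GrF W Q (n + 2) x) :
    GrF W R n (resF F f f' x) :=
  mkO_mem F (p := fun l x => x ∈ W.gr (R l).X n) (fun _ => ratSub_sub _)
    fun c => (resD_gr (h.fr _) (h'.fr _) _ (hdim c) (hdiv c) (hx _)).1 n rfl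

lemma FFr.resF_zero {x : Coh W Q} (hx : GrF W Q 0 x) : resF F f f' x = 0 := by
  rw [resF, mkO_apply]
  apply Finset.sum_eq_zero
  intro c _
  rw [(resD_gr (h.fr _) (h'.fr _) _ (hdim c) (hdiv c) (hx _)).2 (by omega), Pi.single_zero,
    smul_zero]

end

end Run7.h152.SS
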