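import Pool.Agent.Run7.h152.SS.Fam
import Pool.Agent.Run7.h152.SP.Lift
import Pool.Agent.Run7.h152.SP.Defs2

/-!
# The conjecture of Hodge type lifts from the strata of a semistable reduction
-/

set_option autoImplicit false

open CategoryTheory AlgebraicGeometry

universe u v u' v'

namespace Run7.h152.SS

open Pool.Agent.H914 Pool.Agent.H914.VarClass Pool.Agent.H914.VarClass.Obj
  Pool.Agent.H914.WeilCohomology Pool.Agent.H281R3.HT Pool.Agent.W552 Run7.h152.SP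

section Family

variable {k : Type u} [Field k] {𝒱 : VarClass k} {ops : CycleOps 𝒱}
  {W : WeilCohomology.{u, v} ops} {a b : ℕ} {Q : Fin a → Polarized 𝒱}
  {R : Fin b → Polarized 𝒱}

/-- Multiplication by the power `D ^ m` of the divisor on all members. -/
noncomputable def mulP (W : WeilCohomology.{u, v} ops) (Q : Fin a → Polarized 𝒱) (m : ℕ) :
    Module.End W.K (Coh W Q) :=
  LinearMap.pi fun i => LinearMap.mulLeft W.K (W.cl (Q i).X (Q i).D ^ m) ∘ₗ LinearMap.proj i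

lemma mulP_apply (m : ℕ) (x : Coh W Q) (i : Fin a) :
    mulP W Q m x i = W.cl (Q i).X (Q i).D ^ m * x i := rfl

lemma mulP_zero (x : Coh W Q) : mulP W Q 0 x = x := by
  funext i; rw [mulP_apply, pow_zero, one_mul]

lemma mulP_succ (m : ℕ) (x : Coh W Q) : mulP W Q (m + 1) x = mulP W Q 1 (mulP W Q m x) := by
  funext i; rw [mulP_apply, mulP_apply, mulP_apply, pow_one, pow_succ', mul_assoc]

lemma classes_mulDiv (m : ℕ) (z : Cyc Q) :
    classes W (mulDiv ops m z) = mulP W Q m (classes W z) := by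
  funext i
  rw [mulP_apply, classes, classes, mulDiv, cl_divPow']

lemma mulP_single (m : ℕ) (i : Fin a) (v : W.H (Q i).X) :
    mulP W Q m (Pi.single i v) = Pi.single i (W.cl (Q i).X (Q i).D ^ m * v) := by
  funext j
  rw [mulP_apply]
  by_cases hj : j = i
  · subst hj; rw [Pi.single_eq_same, Pi.single_eq_same]
  · rw [Pi.single_eq_of_ne hj, Pi.single_eq_of_ne hj, mul_zero]

lemma ASF.mulP (hD : ∀ i, (Q i).X.IsCyc 1 (Q i).D) {x : Coh W Q} (hx : ASF W Q x) (m : ℕ) :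
    ASF W Q (mulP W Q m x) := by
  intro i
  rw [mulP_apply]
  have h1 : AS W (Q i).X (W.cl (Q i).X (Q i).D) := AS.of ⟨_, hD i, rfl⟩
  have h2 : ∀ m : ℕ, AS W (Q i).X (W.cl (Q i).X (Q i).D ^ m) := by
    intro m
    induction m with
    | zero => rw [pow_zero]; exact AS.one
    | succ m ih => rw [pow_succ]; exact ih.mul h1
  exact (h2 m).mul (hx i)

/-- The sum of the traces of the products. -/
noncomputable def trF (x y : Coh W Q) : W.K := ∑ i, W.tr (Q i).X (x i * y i)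

lemma trF_add (x x' y : Coh W Q) : trF (x + x') y = trF x y + trF x' y := by
  simp only [trF, Pi.add_apply, add_mul, map_add, Finset.sum_add_distrib]

lemma trF_comm {x : Coh W Q} (hx : ASF W Q x) (y : Coh W Q) : trF x y = trF y x := by
  unfold trF
  exact Finset.sum_congr rfl fun i _ => by rw [(hx i).comm]

lemma trF_zero (x : Coh W Q) : trF x 0 = 0 := by
  simp [trF]

lemma trF_mulP (hD : ∀ i, (Q i).X.IsCyc 1 (Q i).D) (m : ℕ) (x y : Coh W Q) :
    trF x (mulP W Q m y) = trF (mulP W Q m x) y := by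
  unfold trF
  apply Finset.sum_congr rfl
  intro i _
  have h1 : AS W (Q i).X (W.cl (Q i).X (Q i).D) := AS.of ⟨_, hD i, rfl⟩
  have h2 : ∀ m : ℕ, AS W (Q i).X (W.cl (Q i).X (Q i).D ^ m) := by
    intro m
    induction m with
    | zero => rw [pow_zero]; exact AS.one
    | succ m ih => rw [pow_succ]; exact ih.mul h1
  rw [mulP_apply, mulP_apply, ← mul_assoc, (h2 m).comm (x i)]

variable (F : Faces R Q)

lemma trF_gys (y : Coh W R) (x : Coh W Q) : trF (F.gysL W y) x = trF y (F.resL W x) := by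
  have e1 : trF (F.gysL W y) x = ∑ c, (F.sgn c : W.K) *
      W.tr _ (W.push (F.map c) (y (F.src c)) * x (F.tgt c)) := by
    rw [gys_eq, mkU_apply, trF]
    simp only [Finset.sum_apply, Finset.sum_mul, map_sum, Pi.smul_apply, smul_mul_assoc,
      map_smul, smul_eq_mul]
    rw [Finset.sum_comm]
    apply Finset.sum_congr rfl
    intro c _
    rw [Finset.sum_eq_single (F.tgt c)]
    · rw [Pi.single_eq_same]
    · intro j _ hj
      rw [Pi.single_eq_of_ne hj, zero_mul, map_zero, mul_zero]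
    · intro h; exact absurd (Finset.mem_univ _) h
  have e2 : trF y (F.resL W x) = ∑ c, (F.sgn c : W.K) *
      W.tr _ (y (F.src c) * W.map (F.map c) (x (F.tgt c))) := by
    rw [res_eq, mkO_apply, trF]
    simp only [Finset.sum_apply, Finset.mul_sum, map_sum, Pi.smul_apply, mul_smul_comm,
      map_smul, smul_eq_mul]
    rw [Finset.sum_comm]
    apply Finset.sum_congr rfl
    intro c _
    rw [Finset.sum_eq_single (F.src c)]
    · rw [Pi.single_eq_same]; rfl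
    · intro j _ hj
      rw [Pi.single_eq_of_ne hj, mul_zero, map_zero, mul_zero]
    · intro h; exact absurd (Finset.mem_univ _) h
  rw [e1, e2]
  exact Finset.sum_congr rfl fun c _ => by rw [W.tr_push]

lemma Faces.Restricts.at {F : Faces R Q} (hdiv : F.Restricts W) (c : Fin F.r) :
    W.map (F.map c) (W.cl _ (Q (F.tgt c)).D) = W.cl _ (R (F.src c)).D := hdiv c

variable {F} (hD : ∀ i, (Q i).X.IsCyc 1 (Q i).D) (hdiv : F.Restricts W)

include hdiv

lemma res_mulP (m : ℕ) (x : Coh W Q) : F.resL W (mulP W Q m x) = mulP W R m (F.resL W x) := by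
  rw [res_eq, mkO_apply, mkO_apply, map_sum]
  apply Finset.sum_congr rfl
  intro c _
  rw [map_smul, mulP_single, ← hdiv.at c]
  congr 2
  rw [AlgHom.toLinearMap_apply, AlgHom.toLinearMap_apply, mulP_apply, map_mul, map_pow]

include hD

lemma gys_mulP (m : ℕ) (y : Coh W R) : F.gysL W (mulP W R m y) = mulP W Q m (F.gysL W y) := by
  rw [gys_eq, mkU_apply, mkU_apply, map_sum]
  apply Finset.sum_congr rfl
  intro c _
  rw [map_smul, mulP_single]
  congr 2
  rw [mulP_apply, ← hdiv.at c, ← map_pow]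
  have h1 : W.cl (Q (F.tgt c)).X (Q (F.tgt c)).D ^ m ∈ W.gr (Q (F.tgt c)).X (2 * m) := by
    induction m with
    | zero => rw [pow_zero]; exact W.one_mem _
    | succ m ih =>
      rw [pow_succ]
      exact W.mul_mem ih (W.cl_mem (hD _))
  exact (W.mul_push _ h1 _).symm

end Family

section Der

variable {k : Type u} [Field k] {𝒱 : VarClass k} {ops : CycleOps 𝒱}
  {W : WeilCohomology.{u, v} ops} {a b : ℕ} {Q : Fin a → Polarized 𝒱}
  {R : Fin b → Polarized 𝒱} {F : Faces R Q}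
  {f : ∀ i, Module.End W.K (W.H (Q i).X)} {f' : ∀ i, Module.End W.K (W.H (R i).X)}
  (h : FFr Q f) (h' : FFr R f')
  (hdim : ∀ c, (R (F.src c)).X.dim + 1 = (Q (F.tgt c)).X.dim) (hdiv : F.Restricts W)

include h h' hdim hdiv

lemma resF_mulP_one (x : Coh W Q) :
    resF F f f' (mulP W Q 1 x) = mulP W R 1 (resF F f f' x) - F.resL W x := by
  rw [resF, mkO_apply, mkO_apply, res_eq, mkO_apply, map_sum, ← Finset.sum_sub_distrib]
  apply Finset.sum_congr rfl
  intro c _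
  rw [map_smul, mulP_single, ← smul_sub, ← single_sub]
  congr 2
  have h1 := (raise_map (F.map c) (hdim c) (hdiv c)).der_e (h.fr _).sl2 (h'.fr _).sl2
    (x (F.tgt c))
  rw [mulP_apply, pow_one, pow_one]
  rw [LinearMap.mulLeft_apply, LinearMap.mulLeft_apply] at h1
  rw [resD, h1]
  abel

/-- The powers of the divisor preserve the harmonic classes. -/
lemma resF_mulP {x : Coh W Q} (h1 : F.resL W x = 0) (h2 : resF F f f' x = 0) (m : ℕ) :
    resF F f f' (mulP W Q m x) = 0 := by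
  induction m with
  | zero => rw [mulP_zero]; exact h2
  | succ m ih =>
    rw [mulP_succ, resF_mulP_one h h' hdim hdiv, ih, map_zero, res_mulP hdiv, h1, map_zero,
      sub_zero]

end Der

section Good

variable {k : Type u} [Field k] {𝒱 : VarClass k} {ops : CycleOps 𝒱}
  {W : WeilCohomology.{u, v} ops} {S : Strata 𝒱} {n : ℕ}

lemma Strata.IsGood.res_res' (hS : S.IsGood W n) (x : Coh W S.Q₀) :
    S.F₁.resL W (S.F₀.resL W x) = 0 := by
  have := hS.res_res x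
  rwa [res_resL, res_resL] at this

lemma Strata.IsGood.res_gys' (hS : S.IsGood W n) (y : Coh W S.Q₁) :
    S.F₀.resL W (S.F₀.gysL W y) + S.F₁.gysL W (S.F₁.resL W y) = 0 := by
  have := hS.res_gys y
  rwa [res_resL, gys_gysL, res_resL, gys_gysL] at this

lemma Strata.IsGood.dim₀ (hS : S.IsGood W n) (i) : (S.Q₀ i).X.dim = n := by
  have := (hS.std₀ i).1
  omega

lemma Strata.IsGood.dim₁ (hS : S.IsGood W n) (i) : (S.Q₁ i).X.dim + 1 = n := (hS.std₁ i).1

lemma Strata.IsGood.dim₂ (hS : S.IsGood W n) (i) : (S.Q₂ i).X.dim + 2 = n := (hS.std₂ i).1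

end Good

section Main

variable {k : Type u} [Field k] {𝒱 : VarClass k} {ops : CycleOps 𝒱}
  {k₀ : Type u'} [Field k₀] {𝒱₀ : VarClass k₀} {ops₀ : CycleOps 𝒱₀}
  {W : WeilCohomology.{u, v} ops} {W₀ : WeilCohomology.{u', v'} ops₀}
  {P : Polarized 𝒱} {S : Strata 𝒱₀}

/-- **The decomposition of the classes whose restrictions agree.** -/
theorem exists_harmonic {n : ℕ} (hS : S.IsGood W₀ n) {j : ℕ}
    {x : Coh W₀ S.Q₀} (hx : ∀ i, x i ∈ algClasses W₀ (S.Q₀ i).X j) (hres : S.F₀.resL W₀ x = 0) :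
    ∃ h a, (∀ i, h i ∈ algClasses W₀ (S.Q₀ i).X j) ∧ S.F₀.resL W₀ h = 0 ∧ S.F₁.resL W₀ a = 0 ∧
      x = h + S.F₀.gysL W₀ a ∧
      ∀ m a', mulP W₀ S.Q₀ m h = S.F₀.gysL W₀ a' → mulP W₀ S.Q₀ m h = 0 := by
  obtain ⟨f₀, h₀⟩ := hS.std₀.exists_ffr
  obtain ⟨f₁, h₁⟩ := hS.std₁.exists_ffr
  obtain ⟨f₂, h₂⟩ := hS.std₂.exists_ffr
  have hd₀ : ∀ c, (S.Q₁ (S.F₀.src c)).X.dim + 1 = (S.Q₀ (S.F₀.tgt c)).X.dim := fun c => by
    rw [hS.dim₁, hS.dim₀]
  have hd₁ : ∀ c, (S.Q₂ (S.F₁.src c)).X.dim + 1 = (S.Q₁ (S.F₁.tgt c)).X.dim := fun c => by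
    have e1 := hS.dim₁ (S.F₁.tgt c)
    have e2 := hS.dim₂ (S.F₁.src c)
    omega
  have hD₀ : ∀ i, (S.Q₀ i).X.IsCyc 1 (S.Q₀ i).D := fun i => (hS.std₀ i).2.1
  have A₀ := h₀.adj S.F₀ h₁ hd₀ hS.div₀
  have A₁ := h₁.adj S.F₁ h₂ hd₁ hS.div₁
  obtain ⟨h, a, hh, hh0, hh1, ha, hxa⟩ := harmonic h₀.posForm h₁.posForm h₂.posForm A₀ A₁
    hS.res_res'
    (by
      intro y
      rw [resF_eq, resF_eq, map_sub, hS.res_res', hS.res_res', map_zero]
      abel)
    hS.res_gys'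
    (by
      intro y
      rw [resF_eq, gysF_eq, gysF_eq, resF_eq, map_sub, map_sub]
      have e1 := hS.res_gys' (lam f₁ y)
      have e2 := congrArg (lam f₁) (hS.res_gys' y)
      rw [map_add, map_zero] at e2
      have e3 : lam f₁ (S.F₀.resL W₀ (S.F₀.gysL W₀ y)) - S.F₀.resL W₀ (lam f₀ (S.F₀.gysL W₀ y)) +
          (S.F₀.resL W₀ (lam f₀ (S.F₀.gysL W₀ y)) - S.F₀.resL W₀ (S.F₀.gysL W₀ (lam f₁ y))) +
          (lam f₁ (S.F₁.gysL W₀ (S.F₁.resL W₀ y)) - S.F₁.gysL W₀ (lam f₂ (S.F₁.resL W₀ y))) +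
          (S.F₁.gysL W₀ (lam f₂ (S.F₁.resL W₀ y)) - S.F₁.gysL W₀ (S.F₁.resL W₀ (lam f₁ y))) =
          (lam f₁ (S.F₀.resL W₀ (S.F₀.gysL W₀ y)) + lam f₁ (S.F₁.gysL W₀ (S.F₁.resL W₀ y))) -
          (S.F₀.resL W₀ (S.F₀.gysL W₀ (lam f₁ y)) + S.F₁.gysL W₀ (S.F₁.resL W₀ (lam f₁ y))) := by
        abel
      rw [e3, e2, e1, sub_zero])
    (M₀ := fun x => ∀ i, x i ∈ algClasses W₀ (S.Q₀ i).X j)
    ⟨fun i => alg_zero j, fun hx hy i => alg_add (hx i) (hy i),
      fun q _ hx i => alg_smul q (hx i)⟩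
    (fun x hx i => AS.of (hx i))
    (by
      intro x hx
      have hxA : ASF W₀ S.Q₀ x := fun i => AS.of (hx i)
      have hxG : GrF W₀ S.Q₀ (2 * j) x := fun i => alg_gr (hx i)
      have g1 : GrF W₀ S.Q₀ (2 * j) (gysF S.F₀ f₀ f₁ (S.F₀.resL W₀ x)) :=
        h₀.gysF_gr S.F₀ h₁ hd₀ hS.div₀ (h₀.res_gr S.F₀ h₁ hd₀ hS.div₀ hxG)
      have g2 : GrF W₀ S.Q₀ (2 * j) (S.F₀.gysL W₀ (resF S.F₀ f₀ f₁ x)) := by
        rcases Nat.eq_zero_or_pos j with rfl | hj
        · rw [h₀.resF_zero S.F₀ h₁ hd₀ hS.div₀ hxG, map_zero]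
          exact fun i => Submodule.zero_mem _
        · obtain ⟨i, rfl⟩ : ∃ i, j = i + 1 := ⟨j - 1, by omega⟩
          exact h₀.gys_gr S.F₀ h₁ hd₀ hS.div₀
            (h₀.resF_gr S.F₀ h₁ hd₀ hS.div₀ (n := 2 * i) hxG)
      intro i
      have g3 : (S.F₀.gysL W₀ (resF S.F₀ f₀ f₁ x) - gysF S.F₀ f₀ f₁ (S.F₀.resL W₀ x)) i ∈
          W₀.gr (S.Q₀ i).X (2 * j) := Submodule.sub_mem _ (g2 i) (g1 i)
      exact (AS.ratSub.sub (A₀.τ_mem _ (A₀.ρ'_mem _ hxA) i)
        (A₀.τ'_mem _ (A₀.ρ_mem _ hxA) i)).alg g3)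
    hx hres
  refine ⟨h, a, hh, hh0, ha, hxa, ?_⟩
  intro m a' ha'
  have hhA : ASF W₀ S.Q₀ (mulP W₀ S.Q₀ m h) := ASF.mulP hD₀ (fun i => AS.of (hh i)) m
  apply h₀.posForm.eq_zero hhA
  conv_lhs => rw [ha']
  rw [A₀.gys _ _ (ha' ▸ hhA), ← ha', resF_mulP h₀ h₁ hd₀ hS.div₀ hh0 hh1 m, map_zero, neg_zero]

/-- **The conjecture of Hodge type lifts from the strata of a semistable reduction.** -/
theorem SemistableReduction.hodgeType (h : SemistableReduction W W₀ P) :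
    HodgeType W P.X P.D := by
  intro j hj z hz hprim hz0
  obtain ⟨S, z₀, hS, hR⟩ := h j hj z hz
  set m := P.X.dim - 2 * j with hm
  have hD₀ : ∀ i, (S.Q₀ i).X.IsCyc 1 (S.Q₀ i).D := fun i => (hS.std₀ i).2.1
  have hRres : S.F₀.resL W₀ (classes W₀ z₀) = 0 := by
    rw [← res_resL]; exact hR.res
  obtain ⟨x, a, hx, hx0, ha, hxa, hker⟩ := exists_harmonic hS
    (x := classes W₀ z₀) (j := j) (fun i => ⟨z₀ i, hR.mem i, rfl⟩) hRres
  have hxA : ASF W₀ S.Q₀ x := fun i => AS.of (hx i)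
  -- the harmonic part is primitive
  have hxp : mulP W₀ S.Q₀ (m + 1) x = 0 := by
    obtain ⟨a₁, ha₁⟩ := hR.zero hprim
    rw [gys_gysL, classes_mulDiv, hxa, map_add, ← gys_mulP hD₀ hS.div₀] at ha₁
    apply hker (m + 1) (a₁ - mulP W₀ S.Q₁ (m + 1) a)
    rw [map_sub, ha₁]
    abel
  -- the degree
  have hdeg : ((P.X.V.degCycle (ops.mul z (divPow ops P.D m z)) : ℚ) : W₀.K) =
      trF x (mulP W₀ S.Q₀ m x) := by
    have e1 : ((selfDegree ops₀ m z₀ : ℚ) : W₀.K) =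
        trF (classes W₀ z₀) (mulP W₀ S.Q₀ m (classes W₀ z₀)) := by
      rw [selfDegree, Rat.cast_sum, trF, ← classes_mulDiv]
      apply Finset.sum_congr rfl
      intro i _
      rw [classes, classes, ← W₀.cl_mul, W₀.tr_cl]
      have h3 := ops₀.mul_mem (hR.mem i) (divPow_mem (ops := ops₀) (hD₀ i) m (hR.mem i))
      rwa [show j + (j + m) = (S.Q₀ i).X.dim by rw [hS.dim₀]; omega] at h3
    rw [hR.deg, e1]
    have e2 : trF (classes W₀ z₀) (mulP W₀ S.Q₀ m (classes W₀ z₀)) =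
        trF x (mulP W₀ S.Q₀ m (classes W₀ z₀)) := by
      conv_lhs => rw [show trF (classes W₀ z₀) (mulP W₀ S.Q₀ m (classes W₀ z₀)) =
        trF (x + S.F₀.gysL W₀ a) (mulP W₀ S.Q₀ m (classes W₀ z₀)) by rw [← hxa]]
      rw [trF_add, trF_gys, res_mulP hS.div₀, hRres, map_zero, trF_zero, add_zero]
    rw [e2, trF_mulP hD₀, trF_comm (ASF.mulP hD₀ hxA m), hxa, trF_add, trF_gys,
      res_mulP hS.div₀, hx0, map_zero, trF_zero, add_zero]
  choose w hw hwx using hx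
  have hdeg2 : P.X.V.degCycle (ops.mul z (divPow ops P.D m z)) =
      ∑ i, (S.Q₀ i).X.V.degCycle (ops₀.mul (w i) (divPow ops₀ (S.Q₀ i).D m (w i))) := by
    have e1 : ((P.X.V.degCycle (ops.mul z (divPow ops P.D m z)) : ℚ) : W₀.K) =
        ((∑ i, (S.Q₀ i).X.V.degCycle (ops₀.mul (w i)
          (divPow ops₀ (S.Q₀ i).D m (w i))) : ℚ) : W₀.K) := by
      rw [hdeg, Rat.cast_sum, trF]
      apply Finset.sum_congr rfl
      intro i _
      rw [← W₀.tr_cl, W₀.cl_mul, cl_divPow', hwx, mulP_apply]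
      have h3 := ops₀.mul_mem (hw i) (divPow_mem (ops := ops₀) (hD₀ i) m (hw i))
      rwa [show j + (j + m) = (S.Q₀ i).X.dim by rw [hS.dim₀]; omega] at h3
    exact_mod_cast e1
  rw [hdeg2, Finset.mul_sum]
  have hpos : ∀ i, 0 ≤ (-1 : ℚ) ^ j * (S.Q₀ i).X.V.degCycle
      (ops₀.mul (w i) (divPow ops₀ (S.Q₀ i).D m (w i))) ∧ (x i ≠ 0 → 0 < (-1 : ℚ) ^ j *
        (S.Q₀ i).X.V.degCycle (ops₀.mul (w i) (divPow ops₀ (S.Q₀ i).D m (w i)))) := by
    intro i
    by_cases h0 : x i = 0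
    · refine ⟨?_, fun h => absurd h0 h⟩
      have e1 : (((S.Q₀ i).X.V.degCycle (ops₀.mul (w i)
          (divPow ops₀ (S.Q₀ i).D m (w i))) : ℚ) : W₀.K) = 0 := by
        rw [← W₀.tr_cl, W₀.cl_mul, hwx, h0, zero_mul, map_zero]
        have h3 := ops₀.mul_mem (hw i) (divPow_mem (ops := ops₀) (hD₀ i) m (hw i))
        rwa [show j + (j + m) = (S.Q₀ i).X.dim by rw [hS.dim₀]; omega] at h3
      have e2 : (S.Q₀ i).X.V.degCycle (ops₀.mul (w i)
          (divPow ops₀ (S.Q₀ i).D m (w i))) = 0 := by exact_mod_cast e1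
      rw [e2, mul_zero]
    · have e1 := (hS.std₀ i).2.2.2.2 j (by rw [hS.dim₀]; exact hj) (w i) (hw i) (by
        rw [hS.dim₀, ← hm, cl_divPow', hwx]
        have := congrFun hxp i
        rwa [mulP_apply] at this) (by rw [hwx]; exact h0)
      rw [hS.dim₀, ← hm] at e1
      exact ⟨e1.le, fun _ => e1⟩
  have hne : x ≠ 0 := by
    intro h0
    apply hz0
    refine hR.inj ⟨a, ?_, ?_⟩
    · rw [res_resL]; exact ha
    · rw [gys_gysL, hxa, h0, zero_add]
  obtain ⟨i, hi⟩ := Function.ne_iff.1 hne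
  exact Finset.sum_pos' (fun i _ => (hpos i).1) ⟨i, Finset.mem_univ _, (hpos i).2 hi⟩

end Main

end Run7.h152.SS
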