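import Pool.Agent.Run7.h152.SS.Wt
import Pool.Agent.W552.Fr

/-!
# A morphism of relative dimension minus one and the forms of the two varieties
-/

set_option autoImplicit false

open CategoryTheory AlgebraicGeometry

universe u v

namespace Run7.h152.SS

open Pool.Agent.H914 Pool.Agent.H914.VarClass Pool.Agent.H914.VarClass.Obj
  Pool.Agent.H914.WeilCohomology Pool.Agent.H281R3.HT Pool.Agent.W552

variable {k : Type u} [Field k] {𝒱 : VarClass k} {ops : CycleOps 𝒱}
  {W : WeilCohomology.{u, v} ops} {X Y : 𝒱.Obj} {D : X.Cycles} {E : Y.Cycles}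
  {f : Module.End W.K (W.H X)} {f' : Module.End W.K (W.H Y)}

lemma raise_map (g : Y ⟶ X) (hdim : Y.dim + 1 = X.dim)
    (hDE : W.map g (W.cl X D) = W.cl Y E) :
    Raise (wt (W.isInternal X) X.dim) (LinearMap.mulLeft W.K (W.cl X D))
      (wt (W.isInternal Y) Y.dim) (LinearMap.mulLeft W.K (W.cl Y E))
      (W.map g).toLinearMap where
  e x := by
    simp only [LinearMap.mulLeft_apply, AlgHom.toLinearMap_apply, map_mul, hDE]
  h x := by
    refine gr_induction (W.isInternal X) (p := fun x => wt (W.isInternal Y) Y.dim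
      ((W.map g).toLinearMap x) = (W.map g).toLinearMap (wt (W.isInternal X) X.dim x) +
        (W.map g).toLinearMap x) ?_ ?_ x
    · intro i a ha
      rw [AlgHom.toLinearMap_apply, AlgHom.toLinearMap_apply, Fr.wt_gr ha,
        Fr.wt_gr (W.map_mem g ha), map_smul]
      have h1 : (X.dim : W.K) = (Y.dim : W.K) + 1 := by rw [← hdim]; push_cast; rfl
      rw [h1]
      module
    · intro a b ha hb
      simp only [map_add] at ha hb ⊢
      rw [ha, hb]
      abel

lemma push_gr (g : Y ⟶ X) (hdim : Y.dim + 1 = X.dim) {i : ℕ} {a : W.H Y}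
    (ha : a ∈ W.gr Y i) : W.push g a ∈ W.gr X (i + 2) := by
  have h1 := W.push_mem g ha
  rw [← grZ_natCast (gr := W.gr X)]
  have h2 : ((i + 2 : ℕ) : ℤ) = i + 2 * ((X.dim : ℤ) - Y.dim) := by
    rw [← hdim]; push_cast; ring
  rw [h2]
  exact h1

lemma raise_push (hD : X.IsCyc 1 D) (g : Y ⟶ X) (hdim : Y.dim + 1 = X.dim)
    (hDE : W.map g (W.cl X D) = W.cl Y E) :
    Raise (wt (W.isInternal Y) Y.dim) (LinearMap.mulLeft W.K (W.cl Y E))
      (wt (W.isInternal X) X.dim) (LinearMap.mulLeft W.K (W.cl X D)) (W.push g) where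
  e x := by
    rw [LinearMap.mulLeft_apply, LinearMap.mulLeft_apply, ← hDE,
      W.mul_push g (p := 1) (W.cl_mem hD)]
  h x := by
    refine gr_induction (W.isInternal Y) (p := fun x => wt (W.isInternal X) X.dim
      (W.push g x) = W.push g (wt (W.isInternal Y) Y.dim x) + W.push g x) ?_ ?_ x
    · intro i a ha
      rw [Fr.wt_gr ha, Fr.wt_gr (push_gr g hdim ha), map_smul]
      have h1 : (X.dim : W.K) = (Y.dim : W.K) + 1 := by rw [← hdim]; push_cast; rfl
      rw [h1]
      push_cast
      module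
    · intro a b ha hb
      simp only [map_add] at ha hb ⊢
      rw [ha, hb]
      abel

variable (F : Fr W X D f) (G : Fr W Y E f') (g : Y ⟶ X) (hdim : Y.dim + 1 = X.dim)
  (hDE : W.map g (W.cl X D) = W.cl Y E)

/-- The commutator of the pull-back with the lowering operators. -/
noncomputable def resD (f : Module.End W.K (W.H X)) (f' : Module.End W.K (W.H Y)) (g : Y ⟶ X) :
    W.H X →ₗ[W.K] W.H Y := der f f' (W.map g).toLinearMap

/-- The commutator of the push-forward with the lowering operators. -/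
noncomputable def gysD (f : Module.End W.K (W.H X)) (f' : Module.End W.K (W.H Y)) (g : Y ⟶ X) :
    W.H Y →ₗ[W.K] W.H X := der f' f (W.push g)

include F G hdim hDE

lemma resD_gr {i : ℕ} {x : W.H X} (hx : x ∈ W.gr X i) :
    (∀ j, j + 2 = i → resD f f' g x ∈ W.gr Y j) ∧ (i < 2 → resD f f' g x = 0) := by
  have h1 := (raise_map g hdim hDE).der_h F.sl2 G.sl2 x
  rw [Fr.wt_gr hx, map_smul] at h1
  have h2 : wt (W.isInternal Y) Y.dim (resD f f' g x) =
      ((i : W.K) - X.dim - 1) • resD f f' g x := by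
    rw [resD, h1]
    module
  have h3 := mem_gr_of_wt (W.isInternal Y) W_hbd h2
  have h4 : (X.dim : W.K) = (Y.dim : W.K) + 1 := by rw [← hdim]; push_cast; rfl
  constructor
  · intro j hj
    apply h3.1
    rw [← hj, h4]
    push_cast
    ring
  · intro hi
    apply h3.2
    intro j h0
    have : (i : W.K) = (j + 2 : ℕ) := by push_cast; rw [h4] at h0; linear_combination h0
    have : i = j + 2 := by exact_mod_cast this
    omega

lemma gysD_gr {i : ℕ} {y : W.H Y} (hy : y ∈ W.gr Y i) : gysD f f' g y ∈ W.gr X i := by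
  have h1 := (raise_push F.hD g hdim hDE).der_h G.sl2 F.sl2 y
  rw [Fr.wt_gr hy, map_smul] at h1
  have h2 : wt (W.isInternal X) X.dim (gysD f f' g y) =
      ((i : W.K) - Y.dim - 1) • gysD f f' g y := by
    rw [gysD, h1]
    module
  have h4 : (X.dim : W.K) = (Y.dim : W.K) + 1 := by rw [← hdim]; push_cast; rfl
  apply (mem_gr_of_wt (W.isInternal X) W_hbd h2).1
  rw [h4]
  ring

lemma push_st {y : W.H Y} (hy : AS W Y y) :
    W.push g (st W Y E f' y) = st W X D f (gysD f f' g y) := by
  refine AS.ind (p := fun y => W.push g (st W Y E f' y) = st W X D f (gysD f f' g y)) ?_ ?_ hy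
  · intro j y hy
    have h1 := (raise_push F.hD g hdim hDE).wey G.sl2 F.sl2 y
    rw [st_apply (alg_gr hy), st_apply (gysD_gr F G g hdim hDE (alg_gr hy)), map_smul]
    exact congrArg _ h1.symm
  · intro a b ha hb
    rw [map_add, map_add, map_add, map_add, ha, hb]

lemma map_st {x : W.H X} (hx : AS W X x) :
    W.map g (st W X D f x) = -st W Y E f' (resD f f' g x) := by
  refine AS.ind (p := fun x => W.map g (st W X D f x) = -st W Y E f' (resD f f' g x)) ?_ ?_ hx
  · intro j x hx
    have h1 : wop W Y E f' (resD f f' g x) = W.map g (wop W X D f x) :=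
      (raise_map g hdim hDE).wey F.sl2 G.sl2 x
    have h2 := resD_gr F G g hdim hDE (alg_gr hx)
    rw [st_apply (alg_gr hx), map_smul, ← h1]
    rcases Nat.eq_zero_or_pos j with rfl | hj
    · rw [h2.2 (by omega), map_zero, map_zero, smul_zero, neg_zero]
    · obtain ⟨i, rfl⟩ : ∃ i, j = i + 1 := ⟨j - 1, by omega⟩
      rw [st_apply (h2.1 (2 * i) (by ring)), sg_two_mul, sg_two_mul, pow_succ, ← neg_smul]
      push_cast
      congr 1
      ring
  · intro a b ha hb
    rw [map_add, map_add, map_add, map_add, ha, hb, neg_add]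

/-- The adjoint of the restriction. -/
theorem bf_res {x : W.H X} {y : W.H Y} (hx : AS W X x) (hy : AS W Y y) :
    bf W Y E f' (W.map g x) y = bf W X D f x (gysD f f' g y) := by
  rw [bf_apply, bf_apply, ← push_st F G g hdim hDE hy, hx.comm, W.tr_push, (hx.map g).comm]

/-- The adjoint of the Gysin map. -/
theorem bf_gys (y : W.H Y) {x : W.H X} (hx : AS W X x) :
    bf W X D f (W.push g y) x = -bf W Y E f' y (resD f f' g x) := by
  rw [bf_apply, bf_apply, W.tr_push, map_st F G g hdim hDE hx, mul_neg, map_neg]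

omit hdim hDE in
lemma AS_resD {x : W.H X} (hx : AS W X x) : AS W Y (resD f f' g x) := by
  have h1 := (AS.ratSub (W := W) (X := Y)).sub (G.aop.apply (hx.map g))
    ((F.aop.apply hx).map g)
  exact h1

omit hdim hDE in
lemma AS_gysD {y : W.H Y} (hy : AS W Y y) : AS W X (gysD f f' g y) := by
  have h1 := (AS.ratSub (W := W) (X := X)).sub (F.aop.apply (hy.push g))
    ((G.aop.apply hy).push g)
  exact h1

end Run7.h152.SS
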