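import Pool.Agent.H914R2.Sl2Rep
import Pool.Agent.H914R2.PProd

/-!
# Maps of weight one between representations of `sl(2)`
-/

set_option autoImplicit false

open Finset
open IsNilpotent (exp exp_eq_sum)

namespace Run7.h152.SS

open Pool.Agent.H914

variable {K : Type*} [Field K] {V V' : Type*} [AddCommGroup V] [Module K V]
  [AddCommGroup V'] [Module K V']

/-- The operator `ψ ↦ a' ψ - ψ a`. -/
def adO (a : Module.End K V) (a' : Module.End K V') : Module.End K (V →ₗ[K] V') where
  toFun ψ := a' ∘ₗ ψ - ψ ∘ₗ a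
  map_add' ψ χ := by
    rw [LinearMap.comp_add, LinearMap.add_comp]; abel
  map_smul' c ψ := by
    rw [LinearMap.comp_smul, LinearMap.smul_comp, RingHom.id_apply, smul_sub]

lemma adO_apply (a : Module.End K V) (a' : Module.End K V') (ψ : V →ₗ[K] V') (x : V) :
    adO a a' ψ x = a' (ψ x) - ψ (a x) := rfl

lemma two_apply (x : V) : (2 : Module.End K V) x = (2 : K) • x := by
  rw [ofNat_smul_eq_nsmul]; rfl

lemma two_mul_apply (e : Module.End K V) (x : V) : (2 * e : Module.End K V) x = (2 : K) • e x := by
  rw [Module.End.mul_apply, two_apply]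

variable {h e f : Module.End K V} {h' e' f' : Module.End K V'}

lemma sl2_adO (t : Sl2 h e f) (t' : Sl2 h' e' f') : Sl2 (adO h h') (adO e e') (adO f f') where
  ef := by
    ext ψ x
    have h1 := congrArg (fun G => ψ (G x)) t.ef
    have h2 := congrArg (fun G => G (ψ x)) t'.ef
    simp only [LinearMap.sub_apply, Module.End.mul_apply, map_sub] at h1 h2
    simp only [LinearMap.sub_apply, Module.End.mul_apply, adO_apply, map_sub]
    rw [← h1, ← h2]
    abel
  he := by
    ext ψ x
    have h1 := congrArg (fun G => ψ (G x)) t.he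
    have h2 := congrArg (fun G => G (ψ x)) t'.he
    simp only [LinearMap.sub_apply, Module.End.mul_apply, map_sub, two_apply, map_smul] at h1 h2
    simp only [LinearMap.sub_apply, Module.End.mul_apply, adO_apply, map_sub, two_apply,
      LinearMap.smul_apply, smul_sub]
    rw [← h1, ← h2]
    abel
  hf := by
    ext ψ x
    have h1 := congrArg (fun G => ψ (G x)) t.hf
    have h2 := congrArg (fun G => G (ψ x)) t'.hf
    simp only [LinearMap.sub_apply, Module.End.mul_apply, map_sub, two_apply, map_smul,
      LinearMap.neg_apply, map_neg] at h1 h2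
    simp only [LinearMap.sub_apply, Module.End.mul_apply, adO_apply, map_sub, two_apply,
      LinearMap.smul_apply, smul_sub, LinearMap.neg_apply]
    rw [neg_sub, ← neg_neg ((2 : K) • ψ (f x)), ← h1, ← neg_neg ((2 : K) • f' (ψ x)), ← h2]
    abel

/-- The map `φ` commutes with the raising operators and raises the weights by one. -/
structure Raise (h e : Module.End K V) (h' e' : Module.End K V') (φ : V →ₗ[K] V') : Prop where
  e : ∀ x, e' (φ x) = φ (e x)
  h : ∀ x, h' (φ x) = φ (h x) + φ x

/-- The commutator with the lowering operators. -/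
def der (f : Module.End K V) (f' : Module.End K V') (φ : V →ₗ[K] V') : V →ₗ[K] V' :=
  f' ∘ₗ φ - φ ∘ₗ f

lemma der_apply (φ : V →ₗ[K] V') (x : V) : der f f' φ x = f' (φ x) - φ (f x) := rfl

namespace Raise

variable {φ : V →ₗ[K] V'} (R : Raise h e h' e' φ) (t : Sl2 h e f) (t' : Sl2 h' e' f')

include R t t'

lemma der_h (x : V) : h' (der f f' φ x) = der f f' φ (h x) - der f f' φ x := by
  have h1 := congrArg (fun G => φ (G x)) t.hf
  have h2 := congrArg (fun G => G (φ x)) t'.hf
  simp only [LinearMap.sub_apply, Module.End.mul_apply, map_sub, two_apply, map_smul,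
    LinearMap.neg_apply, map_neg] at h1 h2
  rw [sub_eq_iff_eq_add] at h1 h2
  rw [der_apply, der_apply, map_sub, h2, R.h, R.h, h1, map_add]
  module

lemma der_e (x : V) : e' (der f f' φ x) = der f f' φ (e x) + φ x := by
  have h1 := congrArg (fun G => φ (G x)) t.ef
  have h2 := congrArg (fun G => G (φ x)) t'.ef
  simp only [LinearMap.sub_apply, Module.End.mul_apply, map_sub] at h1 h2
  rw [sub_eq_iff_eq_add] at h1 h2
  rw [der_apply, der_apply, map_sub, h2, R.e, R.e, h1, R.h]
  abel

lemma der_f [CharZero K] [Module.Finite K V] [Module.Finite K V'] (x : V) :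
    f' (der f f' φ x) = der f f' φ (f x) := by
  have T := sl2_adO t t'
  set ψ := adO f f' (der f f' φ) with hψ
  have hE : adO e e' ψ = 0 := by
    have h1 := congrArg (fun G => G (der f f' φ)) T.ef
    simp only [LinearMap.sub_apply, Module.End.mul_apply] at h1
    have h2 : adO e e' (der f f' φ) = φ := by
      ext z; rw [adO_apply, R.der_e t t']; abel
    rw [hψ, sub_eq_iff_eq_add.1 h1, h2]
    ext y
    have h3 : adO f f' φ y = der f f' φ y := rfl
    rw [LinearMap.add_apply, LinearMap.zero_apply, adO_apply, h3, R.der_h t t']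
    abel
  have hH : adO h h' ψ = -((3 : ℕ) : K) • ψ := by
    have h1 := congrArg (fun G => G (der f f' φ)) T.hf
    simp only [LinearMap.sub_apply, Module.End.mul_apply, LinearMap.neg_apply, two_apply] at h1
    rw [hψ, sub_eq_iff_eq_add.1 h1]
    have h2 : adO h h' (der f f' φ) = -(der f f' φ) := by
      ext z; rw [adO_apply, R.der_h t t', LinearMap.neg_apply]; abel
    rw [h2, map_neg]
    push_cast
    module
  have hF : adO f f' ψ = 0 := by
    refine T.f_eq_zero (M := 3) hH ?_
    rw [pow_succ, Module.End.mul_apply, hE, map_zero]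
  have h0 : ψ = 0 := by
    have h1 := congrArg (fun G => G ψ) T.ef
    simp only [LinearMap.sub_apply, Module.End.mul_apply] at h1
    rw [hF, hE, map_zero, map_zero, sub_zero, hH] at h1
    rcases smul_eq_zero.1 h1.symm with h2 | h2
    · norm_num at h2
    · exact h2
  have h3 := congrArg (fun G => G x) h0
  rw [hψ] at h3
  simp only [adO_apply, LinearMap.zero_apply] at h3
  exact sub_eq_zero.1 h3

end Raise

section Exp

variable [CharZero K]

/-- The exponential of a nilpotent endomorphism. -/
noncomputable def ex (e : Module.End K V) : Module.End K V :=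
  @exp (Module.End K V) _ (Module.compHom (Module.End K V) (algebraMap ℚ K)) e

lemma ex_apply {e : Module.End K V} {N : ℕ} (hN : e ^ N = 0) (x : V) :
    ex e x = ∑ i ∈ range N, ((i.factorial : K)⁻¹) • (e ^ i) x := by
  let _ : Module ℚ (Module.End K V) := Module.compHom (Module.End K V) (algebraMap ℚ K)
  have h1 : ex e = ∑ i ∈ range N, ((i.factorial : ℚ)⁻¹) • e ^ i := exp_eq_sum hN
  rw [h1, LinearMap.sum_apply]
  apply Finset.sum_congr rfl
  intro i _
  have h2 : ((i.factorial : ℚ)⁻¹ • e ^ i) = (((i.factorial : ℚ)⁻¹ : ℚ) : K) • e ^ i := rfl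
  rw [h2, LinearMap.smul_apply]
  push_cast
  rfl

lemma wey_ex (e f : Module.End K V) (x : V) : wey e f x = ex e (ex (-f) (ex e x)) := rfl

/-- If `φ` commutes with `e` and `[e, χ] = φ`, then `exp e χ = (χ + φ) exp e`. -/
lemma ex_comm {a : Module.End K V} {a' : Module.End K V'} (ha : IsNilpotent a)
    (ha' : IsNilpotent a') {φ χ : V →ₗ[K] V'} (h1 : ∀ x, a' (φ x) = φ (a x))
    (h2 : ∀ x, a' (χ x) = χ (a x) + φ x) (x : V) :
    ex a' (χ x) = χ (ex a x) + φ (ex a x) := by
  obtain ⟨M, hM⟩ := ha
  obtain ⟨M', hM'⟩ := ha'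
  set N := M + M' with hN
  have e1 : a ^ N = 0 := by rw [hN, pow_add, hM, zero_mul]
  have e2 : a ^ (N + 1) = 0 := by rw [pow_succ, e1, zero_mul]
  have e3 : a' ^ (N + 1) = 0 := by rw [pow_succ, hN, pow_add, hM', mul_zero, zero_mul]
  have h3 : ∀ i y, (a' ^ i) (φ y) = φ ((a ^ i) y) := by
    intro i
    induction i with
    | zero => intro y; simp
    | succ i ih => intro y; rw [pow_succ', Module.End.mul_apply, ih, h1, pow_succ',
        Module.End.mul_apply]
  have h4 : ∀ i y, (a' ^ (i + 1)) (χ y) = χ ((a ^ (i + 1)) y) + ((i + 1 : ℕ) : K) • φ ((a ^ i) y) := by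
    intro i
    induction i with
    | zero => intro y; simp [h2]
    | succ i ih =>
      intro y
      rw [pow_succ' a', Module.End.mul_apply, ih, map_add, h2, map_smul, h1,
        ← Module.End.mul_apply a, ← pow_succ' a, ← Module.End.mul_apply a, ← pow_succ' a]
      push_cast
      module
  rw [ex_apply e3, ex_apply e2 x, map_sum, Finset.sum_range_succ', Finset.sum_range_succ']
  have h5 : φ (ex a x) = ∑ i ∈ range N, ((i.factorial : K)⁻¹) • φ ((a ^ i) x) := by
    rw [ex_apply e1, map_sum]
    exact Finset.sum_congr rfl fun i _ => map_smul _ _ _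
  rw [← ex_apply e2 x, h5]
  have h6 : ∀ i ∈ range N, (((i + 1).factorial : K)⁻¹) • (a' ^ (i + 1)) (χ x) =
      χ ((((i + 1).factorial : K)⁻¹) • (a ^ (i + 1)) x) +
        ((i.factorial : K)⁻¹) • φ ((a ^ i) x) := by
    intro i _
    rw [h4, smul_add, map_smul, smul_smul]
    congr 2
    rw [Nat.factorial_succ]
    push_cast
    have h7 : (i.factorial : K) ≠ 0 := by exact_mod_cast (Nat.factorial_pos i).ne'
    have h8 : (i : K) + 1 ≠ 0 := by exact_mod_cast Nat.succ_ne_zero i
    field_simp
  rw [Finset.sum_congr rfl h6, Finset.sum_add_distrib]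
  simp only [Nat.factorial_zero, Nat.cast_one, inv_one, pow_zero, Module.End.one_apply, one_smul]
  abel

/-- **The Weyl operators exchange a map of weight one and its commutator with the lowering
operators.** -/
theorem Raise.wey [Module.Finite K V] [Module.Finite K V'] {φ : V →ₗ[K] V'}
    (R : Raise h e h' e' φ) (t : Sl2 h e f) (t' : Sl2 h' e' f') (x : V) :
    Pool.Agent.H914.wey e' f' (der f f' φ x) = φ (Pool.Agent.H914.wey e f x) := by
  rw [wey_ex, wey_ex]
  rw [ex_comm t.nil_e t'.nil_e R.e (R.der_e t t'), map_add]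
  have h1 : ∀ y, ex (-f') (der f f' φ y) = der f f' φ (ex (-f) y) := by
    intro y
    have := ex_comm (φ := (0 : V →ₗ[K] V')) t.nil_f.neg t'.nil_f.neg
      (fun x => by simp) (χ := der f f' φ) (fun x => by
        rw [LinearMap.neg_apply, R.der_f t t', LinearMap.neg_apply, map_neg,
          LinearMap.zero_apply, add_zero]) y
    rwa [LinearMap.zero_apply, add_zero] at this
  have h2 : ∀ y, ex (-f') (φ y) = φ (ex (-f) y) - der f f' φ (ex (-f) y) := by
    intro y
    have := ex_comm (φ := -(der f f' φ)) t.nil_f.neg t'.nil_f.neg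
      (fun x => by
        rw [LinearMap.neg_apply, LinearMap.neg_apply, LinearMap.neg_apply, map_neg,
          R.der_f t t', LinearMap.neg_apply, map_neg]) (χ := φ) (fun x => by
        rw [LinearMap.neg_apply, LinearMap.neg_apply, LinearMap.neg_apply, map_neg,
          der_apply]
        abel) y
    rw [this, LinearMap.neg_apply]
    abel
  rw [h1, h2, add_sub_cancel, ]
  have h3 := ex_comm (φ := (0 : V →ₗ[K] V')) t.nil_e t'.nil_e
      (fun x => by simp) (χ := φ) (fun x => by
        rw [R.e, LinearMap.zero_apply, add_zero]) (ex (-f) (ex e x))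
  rw [h3, LinearMap.zero_apply, add_zero]

end Exp

end Run7.h152.SS
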